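import Pool.Agent.Y537.PP.Classes

/-!
# Recognition of probe graphs for all classes between comparability and perfect graphs

For a class `C` of graphs, `G` is a probe `C` graph, `ProbeOf C G`, if its vertex set has a partition
into probes and an independent set `N` of non-probes such that edges between non-probes can be added
to `G` so that the result is in `C`. The input of the recognition problem is only the graph.

The theorem: for EVERY class `C` of graphs which contains all 3-colourable comparability graphs
(comparability graphs of partial orders of height at most three) and whose members have no induced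
cycle of length 5, 9 or 13, the recognition of probe `C` graphs is `NP`-hard, and it has no
polynomial-time algorithm unless `P = NP`, even if the inputs are restricted to 3-colourable
2-degenerate graphs. Perfect graphs, perfectly orderable graphs, comparability graphs, comparability
graphs of height three, and graphs without odd holes are such classes. There is one reduction which
works for all the classes at the same time.

Definitions (`Pool/Agent/Y537/PP/Comp.lean`, `Hole.lean`, `Final.lean`, and `Perfect`, `ProbePerfect`
in `Pool/Agent/H515R2/PP/Defs.lean`): `Comparability`, `TwoDegenerate`, `NoHoles` (no induced cycle of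
length 5, 9, 13), `NoOddHole`, `PerfectlyOrderable`, `ProbeOf`, `Comp3`.
-/

namespace Pool.Agent.Results.MP_698553_lc.ProbeComparabilitySandwich

open Pool.Agent.NPC Pool.Agent.H515R2.PP Pool.Agent.H692R2 Pool.Agent.Y537.PP

/-- (1) For every `NP` language `L` there is a polynomial-time computable `f` whose values are
3-colourable 2-degenerate graphs such that `f x` is a probe graph of the 3-colourable comparability
graphs if `x ∈ L`, and is not even a probe graph of the graphs without induced cycles of length
5, 9, 13 if `x ∉ L`. (2) So for every class `C` in between the recognition of probe `C` graphs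
without a given partition is `NP`-hard, and a polynomial-time algorithm which is correct for the
3-colourable 2-degenerate graphs would give `P = NP`. (3) Perfect graphs, comparability graphs,
perfectly orderable graphs, graphs without odd holes, and 3-colourable comparability graphs are such
classes, and for perfect graphs the problem is the one of `ProbePerfect`. -/
theorem result :
    (∀ L : Set (List Bool), InNP L →
      ∃ f : List Bool → FinGraph, PolyTime (fun x => bits (f x)) ∧
        (∀ x, (f x).graph.Colorable 3 ∧ TwoDegenerate (f x).graph) ∧
        (∀ x, x ∈ L → ProbeOf Comp3 (f x).graph) ∧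
        (∀ x, x ∉ L → ¬ ProbeOf NoHoles (f x).graph)) ∧
    (∀ C : (n : ℕ) → SimpleGraph (Fin n) → Prop,
      (∀ (n : ℕ) (G : SimpleGraph (Fin n)), Comparability G → G.Colorable 3 → C n G) →
      (∀ (n : ℕ) (G : SimpleGraph (Fin n)), C n G → NoHoles G) →
        NPHardP (fun G : FinGraph => ProbeOf (C G.n) G.graph) ∧
        ((∃ A : List Bool → List Bool, PolyTime A ∧ ∀ (n : ℕ) (G : SimpleGraph (Fin n)),
          G.Colorable 3 → TwoDegenerate G →
            (A (bits (⟨n, G⟩ : FinGraph)) = [true] ↔ ProbeOf (C n) G)) →
          ∀ L : Set (List Bool), InNP L → InClassP L)) ∧
    (∀ (n : ℕ) (G : SimpleGraph (Fin n)),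
      (Comparability G → Perfect G ∧ PerfectlyOrderable G) ∧
      (Perfect G → NoOddHole G) ∧ (NoOddHole G → NoHoles G) ∧ (PerfectlyOrderable G → NoHoles G) ∧
      (ProbePerfect G ↔ ProbeOf Perfect G)) := by
  refine ⟨fun L hL => main L hL, fun C h1 h2 => ⟨main_hard C h1 h2, fun h => main_alg C h1 h2 h⟩,
    fun n G => ⟨fun h => ⟨h.perfect, h.perfectlyOrderable⟩, noOddHole_of_perfect,
      NoOddHole.noHoles, PerfectlyOrderable.noHoles, Iff.rfl⟩⟩

end Pool.Agent.Results.MP_698553_lc.ProbeComparabilitySandwich
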